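import Pool.Agent.Helper878.ERW.Main

set_option autoImplicit false

open MeasureTheory

/-!
# MP_05ceff_pr: an excited random walk with total drift `δ = 1` that is not recurrent

`Pool.H878.ERW.visits p j` is the number of visits of the path `p` to its current position up to
time `j`, `Pool.H878.ERW.stepProb w p j` the probability of the `j`-th step of the path `p` in the
cookie environment `w`, and `Pool.H878.ERW.IsERW μ env X` says that under `μ` the process `X` is
the excited random walk started at `0` in the random environment `env`: the joint law of the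
environment and of `X 0, …, X n` is the one prescribed by the transition probabilities.
-/

namespace Pool.Agent.Results.MP_05ceff_pr.NotRecurrentAtOne

open Pool.H878.ERW in
/-- There is a stationary ergodic law of cookie environments with at most 5 cookies per site, weakly
elliptic, with expected total drift `δ = 1`, for which the excited random walk started at `0` stays
strictly positive for ever after time `0` with positive probability; so it is not recurrent. -/
theorem result : ∃ (Ω : Type) (_ : MeasurableSpace Ω) (μ : Measure Ω) (_ : IsProbabilityMeasure μ)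
    (env : Ω → ℤ → ℕ → ℝ) (X : ℕ → Ω → ℤ),
    Measurable env ∧ (∀ n, Measurable (X n)) ∧ (∀ w z i, env w z i ∈ Set.Icc (0:ℝ) 1) ∧
    -- the walk
    IsERW μ env X ∧
    -- (SE)
    Ergodic (fun (e : ℤ → ℕ → ℝ) (z : ℤ) => e (z + 1)) (μ.map env) ∧
    -- (BD)
    (∃ M : ℕ, ∀ᵐ w ∂μ, ∀ z i, M < i → env w z i = 1 / 2) ∧
    -- (WEL)
    (∀ z, 0 < μ {w | ∀ i, 1 ≤ i → 0 < env w z i}) ∧
    (∀ z, 0 < μ {w | ∀ i, 1 ≤ i → env w z i < 1}) ∧
    -- δ = 1
    (∫ w, (∑' i : ℕ, (2 * env w 0 (i + 1) - 1)) ∂μ = 1) ∧
    -- with positive probability the walk never returns to its starting point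
    0 < μ {w | ∀ n, 1 ≤ n → 1 ≤ X n w} :=
  Pool.H878.ERW.main

end Pool.Agent.Results.MP_05ceff_pr.NotRecurrentAtOne
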